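import Pool.Agent.N197.AP.Fin6

/-!
# The Tate conjecture at EVERY prime number for products with an arbitrary factor, from the image of Galois
# modulo two

Let `K` be a number field, and let `M i`, for `i` in a finite set, be pure motives of odd weight over `K` with
alternating polarizations, of rank `N i ≥ 6`: for instance the first homology of abelian varieties of
dimension `≥ 3`, or the middle cohomology of hypersurfaces or complete intersections of odd dimension.
After a Tate twist the weight is `-1`, that is, the eigenvalues of ARITHMETIC Frobenius elements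
have weight `1` (absolute value `q^(1/2)`) and the polarization has the multiplier `χ ℓ`, the cyclotomic
character, on the realization `r i ℓ` over `ℚ_ℓ` (structure `IsSystem`; the eigenvalues are integral
after multiplication by `q ^ m` for a fixed `m`, as for all motives). The Tate classes on tensor
words do not change under twists. Let `Z` be an ARBITRARY pure motive over `K`, for example `H ^ w` of any smooth
projective variety, with Frobenius polynomials `Q v` (of geometric Frobenius elements).

The hypotheses concern the prime number TWO only: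

* `LargeModTwo`: the polarizations are integral on stable lattices over `ℤ_2`, there are `N i + 1` integral
  vectors `e i a` with odd mutual products (such vectors exist for every integral alternating form with odd
  determinant), and each EVEN permutation of the vectors `e i a` modulo two is the action of some
  element of the Galois group which acts trivially on the other lattices modulo two. (For example if the
  joint image modulo two contains the product of the groups `Sp(N i, 𝔽₂)`, or only the product of the
  alternating groups of degrees `N i + 1`, as for the Jacobians of `y² = f i (x)` of odd degrees with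
  Galois groups `S` or `A` and independent splitting fields.)
* `FreeValues`: the realization of `Z` modulo two does not absorb the action on the frames: for each `i`
  some element of the Galois group acts trivially on the lattice of `Z` modulo two and permutes the frames
  modulo two, the `i`-th one not trivially; or `(N i + 1)! > 2 ^ (d ^ 2 + 1)` with `d` the rank of `Z`.

**Theorem.** (1) If `K = ℚ` then for EVERY prime number `ℓ` the realizations `r i ℓ` are semisimple, also
over all finite extensions.

(2) Let `ℓ` be ANY prime number for which the realizations `r i ℓ` are semisimple over all finite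
extensions of `K` (for abelian varieties this is Faltings' theorem; for `K = ℚ` it is (1)), and let `V` be
their sum. Then for all `n` the Tate classes in `H ^ a (V ^ n) ⊗ Z(c)` (the alternating maps in `a`
variables from `V ^ n` to the realization of `Z` which are equivariant, up to the twist, for a subgroup of
finite index) are zero for odd `a`, and for even `a = 2 m` they are in the span of the products of `m` Tate
classes of degree two on `V ^ n` and Tate classes of `Z` (`ProductsWith`).

(3) For EVERY prime number `ℓ` there are no Tate classes of degree two between different motives: a bilinear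
form on `M i × M j`, `i ≠ j`, which is equivariant (with the factor `χ ℓ`) under a subgroup of finite
index, is zero.

By (2) and (3) the Tate conjecture at `ℓ` for all `∏ (X i) ^ (n i) × Z`, for varieties `X i` with the motive
`M i` in the middle degree and algebraic cohomology in the other degrees, or for abelian varieties
`X i`, is EQUIVALENT to the Tate conjecture at `ℓ` for `Z` and for the endomorphisms of each `M i` (the Tate
classes in `M i ⊗ M i`). For abelian varieties the last condition holds, by Faltings, as well as the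
semisimplicity: so for every number field `K`, every `A i` over `K` of dimension `≥ 3` with a large joint image
modulo two, every smooth projective variety `Z` over `K` which does not absorb the frames modulo two, and EVERY
prime number `ℓ`: the Tate conjecture for all `∏ (A i) ^ (n i) × Z` is equivalent to the Tate conjecture
for `Z`. Nothing is assumed about the image of Galois at other prime numbers, about
endomorphisms, Frobenius polynomials, or places of bad reduction.

Idea of the proof. (a) At the prime number two the Lie algebra of the image on `V ⊕ Z` contains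
`∏ sp(J i)` with component zero on `Z` (helper171, `Pool.Agent.N171.TG`). (b) A relation
`(α₁ ⋯ α_r β)^s = q^(c s)` between eigenvalues of one Frobenius element on `V` and one eigenvalue `β` on
`Z`, without two factors `α, q/α`, implies a relation of the same kind whose exponents are in a FINITE
set which depends only on the ranks, the weight, `m` and the degree of `K` (`Pool.Agent.N197.AP.S_SERRE2`: the
valuations of the eigenvalues at the places above `p` are bounded; Serre's argument for abelian
varieties, here with the additional number `β`). (c) By Chebotarev's theorem there are Frobenius elements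
which are 2-adically close to `1 + 2 ^ k X` on `V` and to `1`, up to a higher power of two, on `Z`,
for `X` in `∏ sp(J i)` with given rational eigenvalues; the eigenvalues on `V` are then close to `1 ± 2 ^ k λ`,
those on `Z` are closer to `1`, and the logarithm excludes the finitely many relations. (d) So for
infinitely many places there is no relation at all, and ONE such Frobenius element, at a place prime
to `ℓ`, determines the Tate classes at `ℓ` (`Pool.Agent.N166.CZ.core`).
-/

set_option autoImplicit false

namespace Pool.Agent.Results.MP_938ce2_ag.EveryPrimeAnyFactor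

open Matrix Polynomial NumberField IsDedekindDomain
open Pool.Agent.N166.CZ (ProductsWith)
open Pool.Agent.H204R3.GP (FiniteIndexSemisimple)

/-- the absolute Galois group, with the profinite (Krull) topology -/
abbrev AbsoluteGaloisGroup (K : Type) [Field K] : Type := Gal(AlgebraicClosure K/K)

/-- `σ` is an (arithmetic) Frobenius element at the prime `v` of `K`: there is a maximal ideal `Q` above
`v` of the ring of all algebraic integers with `σ x ≡ x ^ N(v)` modulo `Q` for all `x` -/
def IsFrobenius {K : Type} [Field K] [NumberField K] (v : HeightOneSpectrum (𝓞 K))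
    (σ : AbsoluteGaloisGroup K) : Prop :=
  ∃ Q : Ideal (𝓞 (AlgebraicClosure K)), Q.IsMaximal ∧
    Q.comap (algebraMap (𝓞 K) (𝓞 (AlgebraicClosure K))) = v.asIdeal ∧
    ∀ x : 𝓞 (AlgebraicClosure K), σ • x - x ^ Ideal.absNorm v.asIdeal ∈ Q

/-- The roots of the rational polynomial `P` are Weil numbers of weight `w` for the place `v`, and become
integral after multiplication by `q ^ m`, with `q` the number of elements of the residue field. -/
def IsWeil {K : Type} [Field K] [NumberField K] (v : HeightOneSpectrum (𝓞 K)) (w : ℤ) (m : ℕ)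
    (P : ℚ[X]) : Prop :=
  ∀ z : ℂ, aeval z P = 0 → ‖z‖ ^ 2 = (Ideal.absNorm v.asIdeal : ℝ) ^ w ∧
    IsIntegral ℤ ((Ideal.absNorm v.asIdeal : ℂ) ^ m * z)

/-- `χ` is the cyclotomic character with values in `ℚ_ℓ` -/
structure IsCyclotomic {K : Type} [Field K] [NumberField K] (S : Set (HeightOneSpectrum (𝓞 K)))
    (ℓ : ℕ) [Fact ℓ.Prime] (χ : AbsoluteGaloisGroup K →* ℚ_[ℓ]) : Prop where
  continuous : Continuous χ
  frobenius : ∀ v ∉ S, (ℓ : 𝓞 K) ∉ v.asIdeal → ∀ σ : AbsoluteGaloisGroup K, IsFrobenius v σ →
    χ σ = (Ideal.absNorm v.asIdeal : ℚ_[ℓ])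

/-- `r` is a continuous representation by similitudes of the alternating form `J`, with the factor `χ`,
and with the characteristic polynomials `P v` of the (arithmetic) Frobenius elements -/
structure IsRealization {K : Type} [Field K] [NumberField K] (S : Set (HeightOneSpectrum (𝓞 K)))
    (P : HeightOneSpectrum (𝓞 K) → ℚ[X]) (ℓ : ℕ) [Fact ℓ.Prime] {n : ℕ}
    (χ : AbsoluteGaloisGroup K →* ℚ_[ℓ]) (J : Matrix (Fin n) (Fin n) ℚ_[ℓ])
    (r : AbsoluteGaloisGroup K →* Matrix (Fin n) (Fin n) ℚ_[ℓ]) : Prop where
  continuous : Continuous r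
  alternating : Jᵀ = -J
  nondegenerate : J.det ≠ 0
  similitude : ∀ g, (r g)ᵀ * J * r g = χ g • J
  frobenius : ∀ v ∉ S, (ℓ : 𝓞 K) ∉ v.asIdeal → ∀ σ : AbsoluteGaloisGroup K, IsFrobenius v σ →
    (r σ).charpoly = (P v).map (Rat.castHom ℚ_[ℓ])

/-- The `ℓ`-adic realizations `r i ℓ`, for all prime numbers `ℓ`, of motives of rank `N i` and weight `-1` over
the number field `K` (motives of odd weight after a Tate twist), with alternating polarizations `J i ℓ`;
`χ ℓ` is the cyclotomic character. Outside of the finite set `S` of places the characteristic polynomials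
`P i v` of the arithmetic Frobenius elements do not depend on `ℓ`, and are pure of weight `1`. -/
structure IsSystem {K : Type} [Field K] [NumberField K] {ι : Type} {N : ι → ℕ}
    (S : Set (HeightOneSpectrum (𝓞 K))) (m : ℕ) (P : ι → HeightOneSpectrum (𝓞 K) → ℚ[X])
    (χ : ∀ (ℓ : ℕ) [Fact ℓ.Prime], AbsoluteGaloisGroup K →* ℚ_[ℓ])
    (J : ∀ (i : ι) (ℓ : ℕ) [Fact ℓ.Prime], Matrix (Fin (N i)) (Fin (N i)) ℚ_[ℓ])
    (r : ∀ (i : ι) (ℓ : ℕ) [Fact ℓ.Prime],
      AbsoluteGaloisGroup K →* Matrix (Fin (N i)) (Fin (N i)) ℚ_[ℓ]) : Prop where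
  finite : S.Finite
  pure : ∀ v ∉ S, ∀ i, IsWeil v 1 m (P i v)
  cyclotomic : ∀ (ℓ : ℕ) [Fact ℓ.Prime], IsCyclotomic S ℓ (χ ℓ)
  realization : ∀ (i : ι) (ℓ : ℕ) [Fact ℓ.Prime], IsRealization S (P i) ℓ (χ ℓ) (J i ℓ) (r i ℓ)

/-- The image of Galois modulo two is large: the lattices `ℤ₂ ^ N i` are stable, the forms are integral,
`N i ≥ 6`, the `N i + 1` integral vectors `e i a` have odd products `J i (e i a, e i b)` for
`a ≠ b`, and each even permutation of the vectors `e i a` modulo two is the action of an element of the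
Galois group which acts trivially on the other lattices modulo two. -/
structure LargeModTwo {K : Type} [Field K] {ι : Type} {N : ι → ℕ}
    (J : ∀ i, Matrix (Fin (N i)) (Fin (N i)) ℚ_[2])
    (ρ : ∀ i, AbsoluteGaloisGroup K →* Matrix (Fin (N i)) (Fin (N i)) ℚ_[2])
    (e : ∀ i, Fin (N i + 1) → Fin (N i) → ℚ_[2]) : Prop where
  rank : ∀ i, 6 ≤ N i
  integral : ∀ i g a b, ‖ρ i g a b‖ ≤ 1
  integral_form : ∀ i a b, ‖J i a b‖ ≤ 1
  integral_vectors : ∀ i a b, ‖e i a b‖ ≤ 1
  products : ∀ i a b, a ≠ b → ‖e i a ⬝ᵥ J i *ᵥ e i b‖ = 1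
  permutations : ∀ i (π : Equiv.Perm (Fin (N i + 1))), Equiv.Perm.sign π = 1 →
    ∃ g : AbsoluteGaloisGroup K, (∀ a b, ‖(ρ i g *ᵥ e i a - e i (π a)) b‖ < 1) ∧
      ∀ j, j ≠ i → ∀ a b, ‖(ρ j g - 1) a b‖ < 1

/-- The 2-adic realization `τ` of the motive `Z` is continuous and integral, and modulo two it does not absorb
the permutations of the frames: for each `i` some element of the Galois group acts trivially modulo two on
the lattice of `Z` and permutes all the frames modulo two, the `i`-th frame not trivially; or the
factorial of `N i + 1` is greater than `2 ^ (d ^ 2 + 1)`. -/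
structure FreeValues {K : Type} [Field K] {ι : Type} {N : ι → ℕ} {d : ℕ}
    (ρ : ∀ i, AbsoluteGaloisGroup K →* Matrix (Fin (N i)) (Fin (N i)) ℚ_[2])
    (e : ∀ i, Fin (N i + 1) → Fin (N i) → ℚ_[2])
    (τ : AbsoluteGaloisGroup K →* Matrix (Fin d) (Fin d) ℚ_[2]) : Prop where
  continuous : Continuous τ
  integral : ∀ g a b, ‖τ g a b‖ ≤ 1
  free : ∀ i, 2 ^ (d ^ 2 + 1) < (N i + 1).factorial ∨
    ∃ (g : AbsoluteGaloisGroup K) (π : ∀ j, Equiv.Perm (Fin (N j + 1))),
      (∀ a b, ‖(τ g - 1) a b‖ < 1) ∧ π i ≠ 1 ∧
        ∀ j a b, ‖(ρ j g *ᵥ e j a - e j (π j a)) b‖ < 1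

/-- the realization `s` over `ℚ_ℓ` has the Frobenius polynomials `Q v` (of the geometric Frobenius
elements `σ⁻¹`) -/
def HasFrobenius {K : Type} [Field K] [NumberField K] (S : Set (HeightOneSpectrum (𝓞 K)))
    (Q : HeightOneSpectrum (𝓞 K) → ℚ[X]) (ℓ : ℕ) [Fact ℓ.Prime] {M : Type} [AddCommGroup M]
    [Module ℚ_[ℓ] M] [FiniteDimensional ℚ_[ℓ] M]
    (s : Representation ℚ_[ℓ] (AbsoluteGaloisGroup K) M) : Prop :=
  ∀ v ∉ S, (ℓ : 𝓞 K) ∉ v.asIdeal → ∀ σ : AbsoluteGaloisGroup K, IsFrobenius v σ →
    LinearMap.charpoly (s σ⁻¹) = (Q v).map (Rat.castHom ℚ_[ℓ])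

/-- the representation on the column vectors -/
noncomputable def matRep {k G : Type} [Field k] [Group G] {n : ℕ}
    (r : G →* Matrix (Fin n) (Fin n) k) : Representation k G (Fin n → k) :=
  ((Matrix.toLinAlgEquiv' (R := k) (n := Fin n)).toAlgHom.toRingHom.toMonoidHom).comp r

/-- the direct sum of linear maps -/
def sumMap {k ι : Type} [Field k] {V : ι → Type} [∀ i, AddCommGroup (V i)] [∀ i, Module k (V i)]
    (f : ∀ i, V i →ₗ[k] V i) : (∀ i, V i) →ₗ[k] (∀ i, V i) :=
  LinearMap.pi fun i => (f i).comp (LinearMap.proj i)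

theorem sumMap_one {k ι : Type} [Field k] {V : ι → Type} [∀ i, AddCommGroup (V i)]
    [∀ i, Module k (V i)] : sumMap (fun i => (1 : V i →ₗ[k] V i)) = 1 := by
  unfold sumMap
  ext x i
  rfl

/-- the direct sum of representations -/
def sumRep {k G : Type} [Field k] [Group G] {ι : Type} {V : ι → Type} [∀ i, AddCommGroup (V i)]
    [∀ i, Module k (V i)] (ρ : ∀ i, Representation k G (V i)) : Representation k G (∀ i, V i) where
  toFun g := sumMap fun i => ρ i g
  map_one' := by
    have h1 : (fun i => ρ i 1) = fun i => (1 : V i →ₗ[k] V i) := funext fun i => map_one (ρ i)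
    rw [h1]
    exact sumMap_one
  map_mul' g h := by
    refine LinearMap.ext fun x => funext fun i => ?_
    exact congrArg (fun f : V i →ₗ[k] V i => f (x i)) (map_mul (ρ i) g h)

/-- A bilinear form on the two representations which is multiplied by `χ` on a subgroup of finite index is
zero. -/
def NoTateForms {k G : Type} [Field k] [Group G] {a b : ℕ} (r : G →* Matrix (Fin a) (Fin a) k)
    (r' : G →* Matrix (Fin b) (Fin b) k) (χ : G →* k) : Prop :=
  ∀ B : (Fin a → k) →ₗ[k] (Fin b → k) →ₗ[k] k,
    (∃ Δ : Subgroup G, Δ.FiniteIndex ∧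
      ∀ s ∈ Δ, ∀ x y, B (r s *ᵥ x) (r' s *ᵥ y) = χ s * B x y) → B = 0

/-- The motive `Z` is pure of weight `w`, with the 2-adic realization `τ`. -/
structure IsPureMotive {K : Type} [Field K] [NumberField K] (S : Set (HeightOneSpectrum (𝓞 K)))
    (w : ℤ) (m : ℕ) (Q : HeightOneSpectrum (𝓞 K) → ℚ[X]) {d : ℕ}
    (τ : AbsoluteGaloisGroup K →* Matrix (Fin d) (Fin d) ℚ_[2]) : Prop where
  pure : ∀ v ∉ S, IsWeil v w m (Q v)
  frobenius : HasFrobenius S Q 2 (matRep τ)

/-- All Tate classes on the powers of `V` with values in the `ℓ`-adic realization of the motive `Z` (with the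
Frobenius polynomials `Q v`) are combinations of products of Tate classes of degree two and Tate
classes of `Z`. -/
def AtPrime {K : Type} [Field K] [NumberField K] (S : Set (HeightOneSpectrum (𝓞 K)))
    (Q : HeightOneSpectrum (𝓞 K) → ℚ[X]) (ℓ : ℕ) [Fact ℓ.Prime] {V : Type} [AddCommGroup V]
    [Module ℚ_[ℓ] V] (ρ : Representation ℚ_[ℓ] (AbsoluteGaloisGroup K) V)
    (χ : AbsoluteGaloisGroup K →* ℚ_[ℓ]) : Prop :=
  ∀ (M : Type) [AddCommGroup M] [Module ℚ_[ℓ] M] [FiniteDimensional ℚ_[ℓ] M]
    (s : Representation ℚ_[ℓ] (AbsoluteGaloisGroup K) M), HasFrobenius S Q ℓ s →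
    ProductsWith ρ χ s

/-- **The Tate conjecture at every prime number for products with an arbitrary factor.** -/
theorem result {K : Type} [Field K] [NumberField K] {ι : Type} [Fintype ι] [Nonempty ι]
    {N : ι → ℕ} {d m : ℕ} {w : ℤ}
    -- motives of odd weight, twisted to weight `-1`
    (S : Set (HeightOneSpectrum (𝓞 K))) (P : ι → HeightOneSpectrum (𝓞 K) → ℚ[X])
    (χ : ∀ (ℓ : ℕ) [Fact ℓ.Prime], AbsoluteGaloisGroup K →* ℚ_[ℓ])
    (J : ∀ (i : ι) (ℓ : ℕ) [Fact ℓ.Prime], Matrix (Fin (N i)) (Fin (N i)) ℚ_[ℓ])
    (r : ∀ (i : ι) (ℓ : ℕ) [Fact ℓ.Prime],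
      AbsoluteGaloisGroup K →* Matrix (Fin (N i)) (Fin (N i)) ℚ_[ℓ])
    (h : IsSystem S m P χ J r)
    -- the hypothesis on the image modulo two
    (e : ∀ i, Fin (N i + 1) → Fin (N i) → ℚ_[2])
    (h2 : LargeModTwo (fun i => J i 2) (fun i => r i 2) e)
    -- the motive `Z`
    (Q : HeightOneSpectrum (𝓞 K) → ℚ[X]) (τ : AbsoluteGaloisGroup K →* Matrix (Fin d) (Fin d) ℚ_[2])
    (hQ : IsPureMotive S w m Q τ) (hτ : FreeValues (fun i => r i 2) e τ) :
    -- (1)
    (Module.finrank ℚ K = 1 → ∀ (i : ι) (ℓ : ℕ) [Fact ℓ.Prime],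
      FiniteIndexSemisimple (matRep (r i ℓ))) ∧
    -- (2)
    (∀ (ℓ : ℕ) [Fact ℓ.Prime], (∀ i, FiniteIndexSemisimple (matRep (r i ℓ))) →
      AtPrime S Q ℓ (sumRep fun i => matRep (r i ℓ)) (χ ℓ)) ∧
    -- (3)
    ∀ (ℓ : ℕ) [Fact ℓ.Prime] (i j : ι), i ≠ j → NoTateForms (r i ℓ) (r j ℓ) (χ ℓ) := by
  classical
  have hP : ∀ v ∉ S, ∀ i, ∀ z : ℂ, aeval z (P i v) = 0 →
      ‖z‖ ^ 2 = (Ideal.absNorm v.asIdeal : ℝ) ∧
        IsIntegral ℤ ((Ideal.absNorm v.asIdeal : ℂ) ^ m * z) := fun v hv i z hz => by
    have h1 := h.pure v hv i z hz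
    rwa [zpow_one] at h1
  have hτQ' : ∀ v ∉ S, (2 : 𝓞 K) ∉ v.asIdeal → ∀ σ : AbsoluteGaloisGroup K, IsFrobenius v σ →
      (τ σ⁻¹).charpoly = (Q v).map (Rat.castHom ℚ_[2]) := fun v hv hv2 σ hσ => by
    have h1 := hQ.frobenius v hv (by rwa [Nat.cast_ofNat]) σ hσ
    rw [← h1]
    exact (Matrix.charpoly_toLin' (τ σ⁻¹)).symm
  obtain ⟨h1, h3⟩ := Pool.Agent.N197.AP.fin3 S h.finite P Q hP hQ.pure χ J r
    (fun ℓ _ => (h.cyclotomic ℓ).continuous) (fun i ℓ _ => (h.realization i ℓ).continuous)
    (fun i ℓ _ => (h.realization i ℓ).alternating) (fun i ℓ _ => (h.realization i ℓ).nondegenerate)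
    (fun i ℓ _ => (h.realization i ℓ).similitude) (fun ℓ _ => (h.cyclotomic ℓ).frobenius)
    (fun i ℓ _ => (h.realization i ℓ).frobenius) e h2.rank
    h2.integral h2.integral_form h2.integral_vectors h2.products h2.permutations τ hτ.continuous
    hτ.integral hτ.free hτQ'
  refine ⟨h1, h3, fun ℓ _ i j hij B hB => ?_⟩
  obtain ⟨Δ, hΔ, hB'⟩ := hB
  exact Pool.Agent.N197.AP.fin3x S h.finite P Q hP hQ.pure χ J r
    (fun i ℓ _ => (h.realization i ℓ).continuous)
    (fun i ℓ _ => (h.realization i ℓ).alternating) (fun i ℓ _ => (h.realization i ℓ).nondegenerate)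
    (fun i ℓ _ => (h.realization i ℓ).similitude) (fun ℓ _ => (h.cyclotomic ℓ).frobenius)
    (fun i ℓ _ => (h.realization i ℓ).frobenius) e h2.rank
    h2.integral h2.integral_form h2.integral_vectors h2.products h2.permutations τ hτ.continuous
    hτ.integral hτ.free hτQ' ℓ hij B Δ hΔ hB'

end Pool.Agent.Results.MP_938ce2_ag.EveryPrimeAnyFactor
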