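import Pool.Agent.N171.TG.Fin

/-!
# From the Galois image modulo two to the Tate conjecture for tensor categories of motives

Let `M i`, for `i` in a finite set, be motives over a number field `K`, of weight `w i` and rank `N i`,
with an ALTERNATING polarization `J i`, a rational matrix; for instance the middle cohomology of
hypersurfaces or complete intersections of odd dimension. For all prime numbers `ℓ` let
`V i ℓ = ℚ_ℓ ^ N i` be the `ℓ`-adic realizations, with the action `ρ i ℓ` of the absolute Galois group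
`G` of `K`. By the comparison with the Betti realization the form on `V i ℓ` has the same rational
matrix `J i` for all `ℓ`. The group acts by similitudes, with the factor `κ ℓ ^ w i` where `κ ℓ` is the
inverse of the cyclotomic character, and outside of a finite set `S` of places the geometric
Frobenius elements have characteristic polynomials `P i v` in `ℚ[X]` which do not depend on `ℓ`
(structure `IsSystem`).

A tensor word is a product `M (a 0) ⊗ ... ⊗ M (a (k - 1))`. A multilinear form `T` on the realization of a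
tensor word of weight `2 j` is a Tate class (`IsTate`) if an open subgroup of the Galois group
multiplies it by `κ ℓ ^ j`. The Tate conjecture for the tensor words at `ℓ` is the statement `TateAt`:
for all tensor words of all lengths the Tate classes are exactly the combinations with `ℓ`-adic
coefficients of the rational multilinear forms killed by the symplectic Lie algebras of the `J i`; by the
invariant theory of the symplectic groups these forms are generated by the polarizations `J i`, so they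
are algebraic if the polarizations are. For `J i` the cup product on the middle cohomology of a
variety of odd dimension they are the classes of the diagonals and of hyperplane sections.

**The hypothesis** (`LargeModTwo`) concerns ONE finite group, the joint image of Galois MODULO TWO. The
form is integral and its determinant is odd, the Galois group preserves the lattices `ℤ₂ ^ N i`, and
`N i ≥ 6`. There are `N i + 1` integral vectors `e i a` with odd products `J i (e i a, e i b)` for all
`a ≠ b`. (Such vectors exist for each alternating form with odd determinant; modulo two their sum is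
zero.) For each `i` each EVEN permutation of the `N i + 1` vectors modulo two is the action of some
element of `G` which acts trivially on the other `M j` modulo two. This holds if the joint image modulo
two contains the product of the groups `Sp(N i, 𝔽₂)`, but also if it is a much smaller group such as
the product of the alternating groups of degrees `N i + 1`; for example an orthogonal group of a
quadratic form over `𝔽₂` contains the alternating group of degree `N + 1` for the right sign, as for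
hypersurfaces of odd degree. For different `M i` with different ranks and images `Sp(N i, 𝔽₂)` the
condition holds automatically, by Goursat's lemma.

**Theorem.** Under this hypothesis modulo two:

(0) the Tate conjecture holds for all tensor words at the prime number `2`;

(a) it holds for all tensor words at `ℓ`, for all prime numbers `ℓ` outside of a set of natural density
zero;

(b) at EVERY prime number `ℓ` the Tate conjecture for all tensor words is equivalent to the Tate
conjecture for the words `M i ⊗ M i` (for the endomorphisms of the `M i`), if the representations `V i ℓ`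
are semisimple, or else if `K = ℚ` and the motives are pure, with eigenvalues of Frobenius which are
integral up to bounded powers of `N v` (`IsPureIntegral`; this holds for direct factors of the
cohomology of smooth projective varieties, by Deligne);

(c) in the latter case all `V i ℓ`, for ALL `ℓ`, are semisimple.

Nothing is assumed about the prime numbers `ℓ ≠ 2`, and nothing about Frobenius polynomials, the
monodromy of families, Hodge numbers, or the image modulo four.

The proof of the first step: let `Γ n` be the kernel of the joint representation modulo `2 ^ n`. Elements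
of order two and three in the alternating groups, lifted to 2-adic elements of `G`, have squares and cubes
whose logarithms are congruent to explicit matrices; the 2-adic closure of the set of their
conjugates and brackets gives an open subgroup of the symplectic groups (`Pool.Agent.N171.TG.Tn9`,
with the method of `Pool.Agent.N171` for hyperelliptic Jacobians, here for arbitrary
alternating forms with odd determinant, arbitrary similitude characters, and several lattices). The
second step, from the Lie algebra at one prime number to the other prime numbers, is the method of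
`Pool.Agent.R932` (projects OP, EV and PO), which excludes the prime number two; the local facts at two
are new (Krasner's lemma for polynomials whose roots are not units, an unramified cycle of full length
over `ℚ₂` by helper999, an automorphism which moves the square root of two). Semisimplicity over the
field of rational numbers: `Pool.Agent.N536.OP` (helper536).
-/

set_option autoImplicit false

namespace Pool.Agent.Results.MP_938ce2_ag.FromImageModTwo

open Matrix Polynomial Filter Topology NumberField IsDedekindDomain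

/-- the absolute Galois group, with the profinite (Krull) topology -/
abbrev AbsoluteGaloisGroup (K : Type) [Field K] : Type := Gal(AlgebraicClosure K/K)

/-- `σ` is a Frobenius element at the prime `v` of `K`: there is a maximal ideal `Q` above `v` of the
ring of all algebraic integers with `σ x ≡ x ^ N(v)` modulo `Q` for all `x` -/
def IsFrobenius {K : Type} [Field K] [NumberField K] (v : HeightOneSpectrum (𝓞 K))
    (σ : AbsoluteGaloisGroup K) : Prop :=
  ∃ Q : Ideal (𝓞 (AlgebraicClosure K)), Q.IsMaximal ∧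
    Q.comap (algebraMap (𝓞 K) (𝓞 (AlgebraicClosure K))) = v.asIdeal ∧
    ∀ x : 𝓞 (AlgebraicClosure K), σ • x - x ^ Ideal.absNorm v.asIdeal ∈ Q

/-- the rational matrix as an `ℓ`-adic matrix -/
noncomputable abbrev adic (ℓ : ℕ) [Fact ℓ.Prime] {n : ℕ} (J : Matrix (Fin n) (Fin n) ℚ) :
    Matrix (Fin n) (Fin n) ℚ_[ℓ] :=
  J.map (algebraMap ℚ ℚ_[ℓ])

/-- The `ℓ`-adic realizations, for all prime numbers `ℓ`, of motives of rank `N i` and weight `w i` over
the number field `K`, with alternating polarization `J i`, good reduction outside of the finite set `S` of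
places and Frobenius polynomials `P i v`; `κ ℓ` is the inverse of the cyclotomic character. -/
structure IsSystem {K : Type} [Field K] [NumberField K] {ι : Type} {N w : ι → ℕ}
    (S : Set (HeightOneSpectrum (𝓞 K))) (P : ι → HeightOneSpectrum (𝓞 K) → ℚ[X])
    (J : ∀ i, Matrix (Fin (N i)) (Fin (N i)) ℚ)
    (κ : ∀ (ℓ : ℕ) [Fact ℓ.Prime], AbsoluteGaloisGroup K →* ℚ_[ℓ])
    (ρ : ∀ (i : ι) (ℓ : ℕ) [Fact ℓ.Prime],
      AbsoluteGaloisGroup K →* Matrix (Fin (N i)) (Fin (N i)) ℚ_[ℓ]) : Prop where
  finite : S.Finite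
  alternating : ∀ i, (J i)ᵀ = -J i
  nondegenerate : ∀ i, (J i).det ≠ 0
  continuous_char : ∀ (ℓ : ℕ) [Fact ℓ.Prime], Continuous (κ ℓ)
  char_frobenius : ∀ (ℓ : ℕ) [Fact ℓ.Prime], ∀ v ∉ S, (ℓ : 𝓞 K) ∉ v.asIdeal →
    ∀ σ : AbsoluteGaloisGroup K, IsFrobenius v σ → κ ℓ σ⁻¹ = (Ideal.absNorm v.asIdeal : ℚ_[ℓ])
  continuous : ∀ (i : ι) (ℓ : ℕ) [Fact ℓ.Prime], Continuous (ρ i ℓ)
  similitude : ∀ (i : ι) (ℓ : ℕ) [Fact ℓ.Prime] (g : AbsoluteGaloisGroup K),
    (ρ i ℓ g)ᵀ * adic ℓ (J i) * ρ i ℓ g = κ ℓ g ^ w i • adic ℓ (J i)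
  frobenius : ∀ (i : ι) (ℓ : ℕ) [Fact ℓ.Prime], ∀ v ∉ S, (ℓ : 𝓞 K) ∉ v.asIdeal →
    ∀ σ : AbsoluteGaloisGroup K, IsFrobenius v σ →
      (ρ i ℓ σ⁻¹).charpoly = (P i v).map (algebraMap ℚ ℚ_[ℓ])

/-- The image of Galois modulo two is large: the lattices `ℤ₂ ^ N i` are stable, the forms are integral,
`N i ≥ 6`, the `N i + 1` integral vectors `e i a` have odd products `J i (e i a, e i b)` for
`a ≠ b`, and each even permutation of the vectors `e i a` modulo two is the action of an element of the
Galois group which acts trivially on the other lattices modulo two. -/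
structure LargeModTwo {K : Type} [Field K] {ι : Type} {N : ι → ℕ}
    (J : ∀ i, Matrix (Fin (N i)) (Fin (N i)) ℚ)
    (ρ : ∀ i, AbsoluteGaloisGroup K →* Matrix (Fin (N i)) (Fin (N i)) ℚ_[2])
    (e : ∀ i, Fin (N i + 1) → Fin (N i) → ℚ_[2]) : Prop where
  rank : ∀ i, 6 ≤ N i
  integral : ∀ i g a b, ‖ρ i g a b‖ ≤ 1
  integral_form : ∀ i a b, ‖adic 2 (J i) a b‖ ≤ 1
  integral_vectors : ∀ i a b, ‖e i a b‖ ≤ 1
  products : ∀ i a b, a ≠ b → ‖e i a ⬝ᵥ adic 2 (J i) *ᵥ e i b‖ = 1
  permutations : ∀ i (π : Equiv.Perm (Fin (N i + 1))), Equiv.Perm.sign π = 1 →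
    ∃ g : AbsoluteGaloisGroup K, (∀ a b, ‖(ρ i g *ᵥ e i a - e i (π a)) b‖ < 1) ∧
      ∀ j, j ≠ i → ∀ a b, ‖(ρ j g - 1) a b‖ < 1

/-- the value of the multilinear form with the coefficients `T` -/
def value {F : Type} [Field F] {k : ℕ} {n : Fin k → ℕ} (T : (∀ t, Fin (n t)) → F)
    (v : ∀ t, Fin (n t) → F) : F :=
  ∑ r, T r * ∏ t, v t (r t)

/-- the multilinear form on the tensor word `a` is a Tate class: an open subgroup of the Galois
group multiplies it by `κ ^ j` -/
def IsTate {K : Type} [Field K] {ι : Type} {N : ι → ℕ} (ℓ : ℕ) [Fact ℓ.Prime]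
    (ρ : ∀ i, AbsoluteGaloisGroup K →* Matrix (Fin (N i)) (Fin (N i)) ℚ_[ℓ])
    (κ : AbsoluteGaloisGroup K →* ℚ_[ℓ]) {k : ℕ} (a : Fin k → ι) (j : ℕ)
    (T : (∀ t, Fin (N (a t))) → ℚ_[ℓ]) : Prop :=
  ∃ U : Subgroup (AbsoluteGaloisGroup K), IsOpen (U : Set (AbsoluteGaloisGroup K)) ∧
    ∀ σ ∈ U, ∀ v : ∀ t, Fin (N (a t)) → ℚ_[ℓ],
      value T (fun t => ρ (a t) σ *ᵥ v t) = κ σ ^ j * value T v

/-- the multilinear form with rational coefficients on the tensor word `a` is killed by the product of
the Lie algebras of the forms -/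
def IsRationalInvariant {ι : Type} {N : ι → ℕ} (J : ∀ i, Matrix (Fin (N i)) (Fin (N i)) ℚ) {k : ℕ}
    (a : Fin k → ι) (T : (∀ t, Fin (N (a t))) → ℚ) : Prop :=
  ∀ X : ∀ i, Matrix (Fin (N i)) (Fin (N i)) ℚ, (∀ i, (X i)ᵀ * J i + J i * X i = 0) →
    ∀ v : ∀ t, Fin (N (a t)) → ℚ, ∑ t, value T (Function.update v t (X (a t) *ᵥ v t)) = 0

/-- the classes with `ℓ`-adic coefficients which are combinations of the rational invariants -/
noncomputable def span {ι : Type} {N : ι → ℕ} (J : ∀ i, Matrix (Fin (N i)) (Fin (N i)) ℚ) (ℓ : ℕ)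
    [Fact ℓ.Prime] {k : ℕ} (a : Fin k → ι) :
    Submodule ℚ_[ℓ] ((∀ t, Fin (N (a t))) → ℚ_[ℓ]) :=
  Submodule.span ℚ_[ℓ] {T | ∃ T₀ : (∀ t, Fin (N (a t))) → ℚ, IsRationalInvariant J a T₀ ∧
    T = fun r => (T₀ r : ℚ_[ℓ])}

/-- the Tate conjecture at `ℓ` for all tensor words (of even weight `2 j`) -/
def TateAt {K : Type} [Field K] {ι : Type} {N : ι → ℕ} (w : ι → ℕ)
    (J : ∀ i, Matrix (Fin (N i)) (Fin (N i)) ℚ) (ℓ : ℕ) [Fact ℓ.Prime]
    (ρ : ∀ i, AbsoluteGaloisGroup K →* Matrix (Fin (N i)) (Fin (N i)) ℚ_[ℓ])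
    (κ : AbsoluteGaloisGroup K →* ℚ_[ℓ]) : Prop :=
  ∀ (k : ℕ) (a : Fin k → ι) (j : ℕ), ∑ t, w (a t) = 2 * j →
    ∀ T, IsTate ℓ ρ κ a j T ↔ T ∈ span J ℓ a

/-- the Tate conjecture at `ℓ` for the endomorphisms of the motives -/
def EndTateAt {K : Type} [Field K] {ι : Type} {N : ι → ℕ} (w : ι → ℕ)
    (J : ∀ i, Matrix (Fin (N i)) (Fin (N i)) ℚ) (ℓ : ℕ) [Fact ℓ.Prime]
    (ρ : ∀ i, AbsoluteGaloisGroup K →* Matrix (Fin (N i)) (Fin (N i)) ℚ_[ℓ])
    (κ : AbsoluteGaloisGroup K →* ℚ_[ℓ]) : Prop :=
  ∀ a : Fin 2 → ι, a 0 = a 1 → ∀ j, ∑ t, w (a t) = 2 * j →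
    ∀ T, IsTate ℓ ρ κ a j T → T ∈ span J ℓ a

/-- every stable subspace has a stable complement -/
def IsSemisimple {F G V : Type} [Field F] [Group G] [AddCommGroup V] [Module F V]
    (act : G → V → V) : Prop :=
  ∀ W : Submodule F V, (∀ g, ∀ x ∈ W, act g x ∈ W) →
    ∃ W' : Submodule F V, IsCompl W W' ∧ ∀ g, ∀ x ∈ W', act g x ∈ W'

/-- a set of prime numbers has natural density zero -/
def DensityZero (A : Set ℕ) : Prop :=
  Tendsto (fun n : ℕ => (Nat.card {ℓ : ℕ // ℓ ≤ n ∧ ℓ ∈ A} : ℝ) / (Nat.primeCounting n : ℝ))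
    atTop (𝓝 0)

/-- the motives are pure, and multiples of the Frobenius eigenvalues by powers of `N v` are
integral -/
def IsPureIntegral {K : Type} [Field K] [NumberField K] {ι : Type} (w : ι → ℕ)
    (S : Set (HeightOneSpectrum (𝓞 K))) (P : ι → HeightOneSpectrum (𝓞 K) → ℚ[X]) : Prop :=
  ∀ i, ∃ m : ℕ, 0 < w i + 2 * m ∧ ∀ v ∉ S,
    (∃ R : ℤ[X], R.map (algebraMap ℤ ℚ) =
      (P i v).scaleRoots ((Ideal.absNorm v.asIdeal : ℚ) ^ m)) ∧
    ∀ z : ℂ, aeval z (P i v) = 0 → ‖z‖ ^ 2 = (Ideal.absNorm v.asIdeal : ℝ) ^ w i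

theorem mem_span_iff {ι : Type} {N : ι → ℕ} (J : ∀ i, Matrix (Fin (N i)) (Fin (N i)) ℚ) (ℓ : ℕ)
    [Fact ℓ.Prime] {k : ℕ} (a : Fin k → ι) (T : (∀ t, Fin (N (a t))) → ℚ_[ℓ]) :
    Pool.Agent.R932.PO.Killed (Pool.Agent.R932.PO.JL J ℓ) a T ↔ T ∈ span J ℓ a :=
  Pool.Agent.R932.PO.killed_span

theorem result {K : Type} [Field K] [NumberField K] {ι : Type} [Fintype ι] {N w : ι → ℕ}
    (S : Set (HeightOneSpectrum (𝓞 K))) (P : ι → HeightOneSpectrum (𝓞 K) → ℚ[X])
    (J : ∀ i, Matrix (Fin (N i)) (Fin (N i)) ℚ)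
    (κ : ∀ (ℓ : ℕ) [Fact ℓ.Prime], AbsoluteGaloisGroup K →* ℚ_[ℓ])
    (ρ : ∀ (i : ι) (ℓ : ℕ) [Fact ℓ.Prime],
      AbsoluteGaloisGroup K →* Matrix (Fin (N i)) (Fin (N i)) ℚ_[ℓ])
    (h : IsSystem (w := w) S P J κ ρ)
    -- the hypothesis on the image modulo two
    (e : ∀ i, Fin (N i + 1) → Fin (N i) → ℚ_[2]) (h2 : LargeModTwo J (fun i => ρ i 2) e) :
    -- (0) at the prime number two
    TateAt w J 2 (fun i => ρ i 2) (κ 2) ∧
    -- (a) at 100 percent of the prime numbers
    DensityZero {ℓ | ∃ _ : Fact ℓ.Prime, ¬ TateAt w J ℓ (fun i => ρ i ℓ) (κ ℓ)} ∧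
    -- (b) at every prime number
    (∀ (ℓ : ℕ) [Fact ℓ.Prime],
      ((∀ i, IsSemisimple (F := ℚ_[ℓ]) (V := Fin (N i) → ℚ_[ℓ])
        fun (g : AbsoluteGaloisGroup K) x => ρ i ℓ g *ᵥ x) ∨
        (Module.finrank ℚ K = 1 ∧ IsPureIntegral w S P)) →
      (TateAt w J ℓ (fun i => ρ i ℓ) (κ ℓ) ↔ EndTateAt w J ℓ (fun i => ρ i ℓ) (κ ℓ))) ∧
    -- (c) semisimplicity at every prime number, over the field of rational numbers
    (Module.finrank ℚ K = 1 → IsPureIntegral w S P → ∀ (ℓ : ℕ) [Fact ℓ.Prime], ∀ i,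
      IsSemisimple (F := ℚ_[ℓ]) (V := Fin (N i) → ℚ_[ℓ])
        fun (g : AbsoluteGaloisGroup K) x => ρ i ℓ g *ᵥ x) := by
  classical
  have hpos : ∀ i, 0 < N i := fun i => by have := h2.rank i; omega
  have hdet2 : ∀ i, (adic 2 (J i)).det ≠ 0 := fun i =>
    Pool.Agent.R932.PO.det_map_ne (algebraMap ℚ ℚ_[2]) (h.nondegenerate i)
  have halt2 : ∀ i, (adic 2 (J i))ᵀ = -adic 2 (J i) := fun i =>
    (Pool.Agent.R932.PO.Fits.map (κ := .sym) (algebraMap ℚ ℚ_[2])
      (show Pool.Agent.R932.PO.Fits .sym (J i) from ⟨h.alternating i, hpos i⟩)).1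
  have hfull : ∀ X, (∀ i, Pool.Agent.Y142.ZS.SpLie (Pool.Agent.R932.PO.JL J 2 i) (X i)) →
      Pool.Agent.R932.PO.JTan 2 (fun i => ρ i 2) X := fun X hX =>
    Pool.Agent.N171.TG.jtan_of_large (fun i => ρ i 2) (fun i => adic 2 (J i))
      (fun i => (powMonoidHom (w i)).comp (κ 2))
      (fun i => Pool.Agent.R932.OP.even_of_alt (halt2 i) (hdet2 i)) h2.rank halt2 h2.integral
      h2.integral_form (fun i g => h.similitude i 2 g) e h2.integral_vectors h2.products
      h2.permutations X hX
  have hend : ∀ (ℓ : ℕ) [Fact ℓ.Prime], TateAt w J ℓ (fun i => ρ i ℓ) (κ ℓ) →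
      EndTateAt w J ℓ (fun i => ρ i ℓ) (κ ℓ) := fun ℓ _ hT a _ j hj T => (hT 2 a j hj T).1
  obtain ⟨r0, r1, r2, r3⟩ := Pool.Agent.N171.TG.final2 h.finite J h.alternating hpos
    h.nondegenerate κ
    (fun ℓ _ => h.continuous_char ℓ) (fun ℓ _ => h.char_frobenius ℓ) ρ
    (fun i ℓ _ => h.continuous i ℓ) (fun i ℓ _ => h.similitude i ℓ)
    (fun i ℓ _ => h.frobenius i ℓ) 2 hfull
  have hc : Module.finrank ℚ K = 1 → IsPureIntegral w S P → ∀ (ℓ : ℕ) [Fact ℓ.Prime], ∀ i,
      IsSemisimple (F := ℚ_[ℓ]) (V := Fin (N i) → ℚ_[ℓ])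
        fun (g : AbsoluteGaloisGroup K) x => ρ i ℓ g *ᵥ x := by
    intro hK hpi ℓ _ i
    obtain ⟨m, hm, hpi⟩ := hpi i
    exact r3 hK i m hm (fun v hv => (hpi v hv).1) (fun v hv => (hpi v hv).2) ℓ
  have hb : ∀ (ℓ : ℕ) [Fact ℓ.Prime], (∀ i, IsSemisimple (F := ℚ_[ℓ]) (V := Fin (N i) → ℚ_[ℓ])
        fun (g : AbsoluteGaloisGroup K) x => ρ i ℓ g *ᵥ x) →
      (TateAt w J ℓ (fun i => ρ i ℓ) (κ ℓ) ↔ EndTateAt w J ℓ (fun i => ρ i ℓ) (κ ℓ)) := by
    intro ℓ _ hss
    refine ⟨hend ℓ, fun hE k a j hj T => ?_⟩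
    refine (r2 ℓ hss ?_ k a j hj T).trans (mem_span_iff J ℓ a T)
    intro a h1 j hj T hT
    exact (mem_span_iff J ℓ a T).2 (hE a h1 j hj T hT)
  refine ⟨fun k a j hj T => (r0 k a j hj T).trans (mem_span_iff J 2 a T), ?_, ?_, hc⟩
  · refine Pool.Agent.Y142.ZI.DensityZero.mono r1 ?_
    rintro ℓ ⟨hp, hno⟩
    refine ⟨hp, fun hall => hno fun k a j hj T => ?_⟩
    exact (hall k a j hj T).trans (mem_span_iff J ℓ a T)
  · rintro ℓ _ (hss | ⟨hK, hpi⟩)
    · exact hb ℓ hss
    · exact hb ℓ fun i => hc hK hpi ℓ i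

end Pool.Agent.Results.MP_938ce2_ag.FromImageModTwo
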