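import Mathlib
import Pool.Agent.N183.TS.Main

/-!
# The Tate conjecture for products of abelian varieties of given endomorphism types

Let `X` be an abelian variety over a number field `F ⊆ ℂ` each of whose simple factors `Y` over the
complex numbers (the simple abelian varieties with a homomorphism `Y → X` with finite kernel)
satisfies one of the following conditions.

* The dimension of `Y` is at most three.
* `QuadMult Y`: the endomorphism algebra of `Y` is an imaginary quadratic field, and the two
  multiplicities of its action on the tangent space are at most three; if the dimension is six (so
  that both multiplicities are three) then the discriminant is trivial.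
* `RealOdd Y`: the endomorphism algebra of `Y` is of Albert type I (a totally real field) or II (a
  totally indefinite quaternion algebra), and the relative dimension is odd or at most three. The
  dimension is unbounded.
* `HasCMult Y`: `Y` has complex multiplication. The dimension is unbounded.

So `X` may be any form of any product of such varieties, with arbitrary multiplicities; for instance
any power of an abelian variety of odd dimension whose endomorphism ring is `ℤ`, times any power of an
abelian fourfold of Weil type whose endomorphism algebra is an imaginary quadratic field, times any
power of an abelian variety of dimension at most three. No condition is imposed on any Frobenius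
element or on any reduction of `X`. There is one condition on the complex multiplication, as for
Hodge classes. Let `C` be a product of abelian varieties of CM type such that each simple factor of
`X` with complex multiplication is isogenous to a factor of `C`, and also each elliptic curve with
complex multiplication by an imaginary quadratic field which acts on some simple factor `Y` of `X`
without complex multiplication with two different multiplicities on the tangent space. The condition
is that the factors of `C` are divided into independent blocks, each of which is of one of these
kinds (`GoodBlock`):

* the factors of the block have dimension at most three, and any two of them whose CM fields have the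
  same Galois closure over `ℚ` have isomorphic CM types, unless these CM fields are Galois over `ℚ`;
* they are factors of one abelian variety of CM type of dimension at most five;
* they have the same CM type, with a CM field of degree at most fourteen;
* they are factors of one nondegenerate abelian variety of CM type, of arbitrary dimension.

(If `X` has no factor with complex multiplication and no such field with two different
multiplicities then `C` is empty and there is no condition.)

Then all `ℓ`-adic Tate classes on `X`, in all degrees, are `ℚ_ℓ`-linear combinations of classes of
the system `Alg`, the smallest system of cohomology classes on complex abelian varieties that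
contains the classes of degree zero, the Hodge classes of degree two, and the Weil classes of
imaginary quadratic fields on abelian fourfolds and on abelian sixfolds with trivial discriminant,
and that is stable under linear combinations, cup products, pull-backs along homomorphisms, and
push-forwards along the projections of products of abelian varieties. All classes in `Alg` are
algebraic, by the theorem of Lefschetz and by the theorems of Markman on Weil classes, so the Tate
conjecture holds for `X` over `F` and over all finite extensions of `F`.

The proof. The Lie algebra `𝔤` generated by the Hodge–Tate elements over `ℂ_ℓ` kills the Tate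
classes; it is generated by involutions and has the commutant of the Lie algebra `𝔥` of the Hodge
group. No positive definite Hermitian form is preserved by the involution of `𝔤`. Instead the
algebraic theory of Jordan pairs (tripotents of minimal rank and the Casimir element for the trace
form) shows that the irreducible components of `𝔤` for the simple factors of `X` contain elements of
rank one. Then the classes killed by `𝔤` on all products are killed by `𝔥`, so that they are
combinations of Hodge classes. The Hodge classes are treated with the starting library, after an
extension of the library to all odd relative dimensions.
-/

namespace Pool.Agent.Results.MP_938ce2_ag.ProductsByEndomorphismType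

open Module Pool.Agent.Y90 Pool.Agent.R915 Pool.Agent.W547.KB Pool.Agent.W547.UB
  Pool.Agent.Y224.TS.St Pool.Agent.N183.TS TensorProduct

/-- **Tate classes** on an abelian variety `X` over a number field, given (as a complex abelian
variety) by `X : AV`, a polarization `E` and the representation `ρ` of the Galois group `Γ` on the
Tate module `ℚ_ℓ ⊗ H_1(X, ℚ)`, with the known properties of the Tate module (`IsTateModule`; `χ` is
the cyclotomic character, and `ℂ` is identified with an algebraic closure of `ℚ_ℓ`). If the simple
factors of `X` over `ℂ` are as above and the part with complex multiplication is divided into
independent blocks, then each Tate class `φ` of degree `2 m` (an alternating form on the Tate module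
on which a subgroup of finite index acts through `χ ^ m`) is a `ℚ_ℓ`-linear combination of classes
of the system `Alg`. -/
theorem result (X : AV)
    (hX : ∀ Y, IsFactor Y X → finrank ℚ Y.H ≤ 6 ∨ HasCMult Y ∨ QuadMult Y ∨ RealOdd Y)
    (C : CMAV) {J : Type} (b : C.I → J) (hC : IndependentBlocks C b)
    (h1 : ∀ Y, IsFactor Y X → HasCMult Y → ∃ i, IsOfType Y (C.factor i))
    (h2 : ∀ (Y E : AV) (d : ℚ), IsFactor Y X → ¬ HasCMult Y → Unbalanced Y d →
      finrank ℚ E.H = 2 → Unbalanced E d → ∃ i, IsOfType E (C.factor i))
    (E : X.H → X.H → ℚ) (hE : Pool.Agent.Y90.St.IsPolarization X.per E)
    (ℓ : ℕ) [Fact ℓ.Prime] [Algebra ℚ_[ℓ] ℂ] [Algebra.IsAlgebraic ℚ_[ℓ] ℂ]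
    {Γ : Type} [Group Γ] (ρ : Representation ℚ_[ℓ] Γ (ℚ_[ℓ] ⊗[ℚ] X.H)) (χ : Γ →* ℚ_[ℓ])
    (hρ : IsTateModule X.per E ρ χ) {κ : Type} [Finite κ] {m : ℕ} (hκ : Nat.card κ = 2 * m)
    (φ : (ℚ_[ℓ] ⊗[ℚ] X.H) [⋀^κ]→ₗ[ℚ_[ℓ]] ℚ_[ℓ])
    (hφ : ∃ Δ : Subgroup Γ, Δ.FiniteIndex ∧ ∀ g ∈ Δ, ∀ v : κ → ℚ_[ℓ] ⊗[ℚ] X.H,
      φ (fun k => ρ g (v k)) = χ g ^ m * φ v) :
    ∃ (n : ℕ) (c : Fin n → ℚ_[ℓ]) (f : Fin n → (X.H [⋀^κ]→ₗ[ℚ] ℚ)),
      (∀ j, Alg X κ (f j)) ∧
        ∀ v : κ → X.H, φ (fun k => 1 ⊗ₜ v k) = ∑ j, c j * ((f j v : ℚ) : ℚ_[ℓ]) :=
  tate_all algSys X hX C b hC h1 h2 hE hρ hκ φ hφ

end Pool.Agent.Results.MP_938ce2_ag.ProductsByEndomorphismType
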