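import Pool.Agent.N996.TQ.Fin2

/-!
# The square of an abelian variety decides the Tate conjecture for all its powers

Let `X` be a polarised abelian variety of dimension `g` over a number field (or over a finitely
generated field of characteristic zero), and let

* `N = 2` if the centre of the algebra of the endomorphisms of the Hodge structure `H^1(X)` consists
  of self-adjoint endomorphisms (that is, no simple factor of `X` is of type IV),
* `N = max(2, 2 g)` if the elements of this centre have the same trace on `H^(1,0)` and on `H^(0,1)`
  (that is, the Hodge group is semisimple; for instance for the general abelian varieties of Weil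
  type),
* `N = max(4, 2 g ^ (2 g))` in general.

We prove: if the Tate conjecture is true for the one power `X ^ N` then the conjectures of Tate and
Hodge are true for all powers of `X` (hence for all abelian varieties whose simple factors occur in
`X`; for several abelian varieties `X i` take `X = ∏ X i`). So for abelian varieties without
factors of type IV **the Tate conjecture for `X × X` implies the Tate conjecture for all powers**.
The exponent two is optimal: for the abelian fourfolds of Mumford all Tate classes on `X` are
algebraic, while `X × X` carries exceptional Tate classes.

The hypotheses (`IsAbelian`) on `X` are: the algebra `H(X)` is generated by `H^1(X)`, of dimension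
`2 g`, and the following theorems, which are known for abelian varieties:

* the Hodge classes on the powers of `X` are Tate classes (Deligne);
* the action of the Galois group by conjugation on the endomorphisms of the `ℓ`-adic cohomology of
  `X` is semisimple (Faltings);
* the centre of the Lie algebra of the Hodge group of `X` kills the Tate classes on the powers of `X`
  (that is, it is contained in the Lie algebra of the image of Galois: Vasiu, Ullmo and Yafaev);
* the Lie algebra of the image of Galois is generated, over the complex numbers, by its elements of
  Hodge-Tate type: those with the eigenvalues `1` and `-1` on `H^1(X)` (Serre, Pink).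

**The setting.** `𝒱`, `ops`: a class of varieties with algebraic cycles; `T`: a Weil cohomology theory
`H` with rational coefficients and a Hodge decomposition of `ℂ ⊗ H` (`X ↦ H(X(ℂ), ℚ)`); `E : Adic T.W`: a
prime `ℓ` and an action of a group `Γ` (the Galois group) on `ℚ_ℓ ⊗ H` with its formal properties.
`pw X n` is the product of `n + 1` copies of `X`.

**The proof.**

1. The Tate conjecture for `X × X`, in codimension `g`, implies the Mumford-Tate conjecture for `X`
   (see the hand-in on the Mumford-Tate conjecture): on all powers of `X` the Tate classes are the
   combinations of the Hodge classes. For this let `𝔥` be the Lie algebra of the Hodge group over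
   `ℚ_ℓ` and `𝔤 ⊆ 𝔥` the Lie algebra of the endomorphisms which kill all Tate classes. By
   semisimplicity and the density theorem the operators in `𝔥` belong to the algebra generated by
   the logarithms of the Galois operators and by the projectors to the degrees. Let `N` be an
   element of `ℂ ⊗ 𝔤` of Hodge-Tate type and `u` the product of the elements of a basis of one of its
   eigenspaces in `ℂ ⊗ H^1(X)`. For `y` in `ℂ ⊗ 𝔥` with `[N, y] = -2 y` the vector `y u` is in the
   `𝔤`-module generated by `u`, so `y u = y' u` with `y'` in `ℂ ⊗ 𝔤` of degree `-2`, and the trace
   form, together with the positivity of the polarisation, shows `y = y'`. Hence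
   `[N, 𝔥] ⊆ ℂ ⊗ 𝔤`. Then a Galois equivariant projector `𝔥 → 𝔤` has a kernel which commutes with
   all `N`, thus with an open subgroup of the Galois group, and therefore with `𝔥`. By the
   assumption on the centre, `𝔥` kills all Tate classes.
2. Therefore the conjectures of Tate and Hodge are equivalent for each power of `X`, and the Hodge
   conjecture is true for `X ^ N`.
3. The Hodge classes on all powers of `X` are generated by the Hodge classes on `X ^ N` under linear
   combinations, cup products, pull-backs along coordinate maps and push-forwards along projections
   (the square theorem). So the Hodge conjecture and the Tate conjecture are true for all powers.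
-/

open CategoryTheory AlgebraicGeometry
open Pool.Agent.H914 Pool.Agent.H914.VarClass Pool.Agent.H914.VarClass.Obj
open Pool.Agent.Y121.AHS (HodgeTheory IsType)
open Pool.Agent.Y133.Half (pw)
open Pool.Agent.N202.TB.Ad (Adic TateConjecture HodgeConjecture)
open Pool.Agent.N996.BP (Bil)
open Pool.Agent.N996.TQ

universe u

namespace Pool.Agent.Results.MP_938ce2_ag.SquareTateConjecture

/-- **The Tate conjecture for the power `X^N` implies the conjectures of Tate and Hodge for all
powers of the abelian variety `X`, with `N = 2` if `X` has no factor of type IV, and `N = 2 g` if the
Hodge group is semisimple (`g ≥ 1`).** -/
theorem result {k : Type u} [Field k] {𝒱 : VarClass k} {ops : CycleOps 𝒱} (T : HodgeTheory ops)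
    (E : Adic T.W) (X : 𝒱.Obj) (ψ : Bil T.W.K (T.W.H X))
    (hψ : Polar T.rat (IsType T.pq) X.dim ψ)
    (h : IsAbelian E X) (N : ℕ) (hN : Adm (T.W.gr X 1) (IsType T.pq) ψ X.dim N)
    (hT : TateConjecture E (pw X (N - 1))) (n : ℕ) :
    TateConjecture E (pw X n) ∧ HodgeConjecture T (pw X n) :=
  tate_power hψ h hN hT n

end Pool.Agent.Results.MP_938ce2_ag.SquareTateConjecture
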